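import Pool.Agent.N590.NA.Main

set_option autoImplicit false

/-!
# The average `N`-adic complexity of finite sequences is `n / 2 + O(1)`

Definitions: `IsFraction`, `complexity` and `average` are in `Pool.Agent.N590.NA.Defs`.
-/

namespace Pool.Agent.Results.MP_68df70_lc.FiniteAverage

open Pool.Agent.N590.NA

/-- For all `N ≥ 2` and all `n` the average `N`-adic complexity `E_n` of the `N ^ n` words of length
`n` satisfies `n / 2 - c / log N ≤ E_n ≤ n / 2 + (c + ω(N) log 2) / log N` with `c = (1 + log 3) / 2`,
where `ω(N)` is the number of prime divisors of `N`. In particular `|E_n - n / 2| ≤ 1 + c / log N`. -/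
theorem result (N n : ℕ) (hN : 2 ≤ N) :
    ((n : ℝ) / 2 - (1 + Real.log 3) / 2 / Real.log N ≤ average N n ∧
      average N n ≤ (n : ℝ) / 2 +
        ((1 + Real.log 3) / 2 + N.primeFactors.card * Real.log 2) / Real.log N) ∧
    |average N n - (n : ℝ) / 2| ≤ 1 + (1 + Real.log 3) / 2 / Real.log N :=
  ⟨average_bounds N n hN, average_abs N n hN⟩

end Pool.Agent.Results.MP_68df70_lc.FiniteAverage
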